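import Pool.Agent.Helper50.GX.Defs

/-!
# Module PING: a reduced word does not vanish at `X = 1`
-/

set_option autoImplicit false

namespace Pool.Agent.Helper50.GX

open Polynomial

section

variable {K : Type} [Field K] {σ : K ≃+* K}

/-- the null vector -/
noncomputable def pingL (σ : K ≃+* K) (β : K) : Fin 3 → K := ![1, σ (σ β), β * σ (σ β)]

/-- the scalar -/
noncomputable def pingC (σ : K ≃+* K) (β γ : K) : K := β * (1 + σ γ) + (1 + σ β) * γ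

theorem ping_rel (h : Dat σ) {β : K} (hβ : β ∈ XS σ) :
    β * σ β = 1 + β ∧ σ β * σ (σ β) = 1 + σ β ∧ σ (σ β) * β = 1 + σ (σ β) ∧
      β * (σ β * σ (σ β)) = 1 := by
  have h0 : β * σ β = 1 + β := hβ
  have h1 : σ β * σ (σ β) = 1 + σ β := by
    have := congrArg σ h0
    rwa [map_mul, map_add, map_one] at this
  have h2 : σ (σ β) * β = 1 + σ (σ β) := by
    have := congrArg σ h1
    rwa [map_mul, map_add, map_one, h.ord] at this
  refine ⟨h0, h1, h2, ?_⟩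
  linear_combination σ (σ β) * h0 + h2 + σ (σ β) * h.two

theorem ping_inv (h : Dat σ) {β : K} (hβ : β ∈ XS σ) :
    β⁻¹ = 1 + σ β ∧ (σ β)⁻¹ = 1 + σ (σ β) ∧ (σ (σ β))⁻¹ = 1 + β := by
  obtain ⟨h0, h1, h2, h3⟩ := ping_rel h hβ
  refine ⟨?_, ?_, ?_⟩
  · rw [← h1]
    exact inv_eq_of_mul_eq_one_right h3
  · rw [← h2]
    refine inv_eq_of_mul_eq_one_right ?_
    rw [← h3]; ring
  · rw [← h0]
    refine inv_eq_of_mul_eq_one_right ?_
    rw [← h3]; ring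

theorem ping_th (h : Dat σ) {β : K} (hβ : β ∈ XS σ) :
    (th σ β).map (Polynomial.evalRingHom 1) =
      !![β, 1 + σ β, 0; 0, σ β, 1 + σ (σ β); 1 + β, 0, σ (σ β)] := by
  obtain ⟨i0, i1, i2⟩ := ping_inv h hβ
  ext i j
  fin_cases i <;> fin_cases j <;> simp [th, i0, i1, i2]

theorem ping_ad (h : Dat σ) {γ : K} (hγ : γ ∈ XS σ) :
    (ad σ γ).map (Polynomial.evalRingHom 1) =
      !![1 + σ γ, σ γ + (1 + σ (σ γ)), σ (σ γ);
        γ, 1 + σ (σ γ), σ (σ γ) + (1 + γ);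
        γ + (1 + σ γ), σ γ, 1 + γ] := by
  obtain ⟨i0, i1, i2⟩ := ping_inv h hγ
  ext i j
  fin_cases i <;> fin_cases j <;> simp [ad, i0, i1, i2]

theorem ping_alg {b b1 y2 g g1 x2 : K} (two : (2 : K) = 0) (hb0 : b * b1 = 1 + b)
    (hb1 : b1 * y2 = 1 + b1) (hb2 : y2 * b = 1 + y2) (hg0 : g * g1 = 1 + g)
    (hg1 : g1 * x2 = 1 + g1) (hg2 : x2 * g = 1 + x2) (i j : Fin 3) :
    (!![b, 1 + b1, 0; 0, b1, 1 + y2; 1 + b, 0, y2] *
      !![1 + g1, g1 + (1 + x2), x2; g, 1 + x2, x2 + (1 + g); g + (1 + g1), g1, 1 + g]) i j =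
      (b * (1 + g1) + (1 + b1) * g) *
        ((![1, y2, b * y2] : Fin 3 → K) i * (![1, x2, g * x2] : Fin 3 → K) j) := by
  rw [Matrix.mul_fin_three]
  fin_cases i <;> fin_cases j
  · show b * (1 + g1) + (1 + b1) * g + 0 * (g + (1 + g1)) = (b * (1 + g1) + (1 + b1) * g) * (1 * 1)
    ring
  · show b * (g1 + (1 + x2)) + (1 + b1) * (1 + x2) + 0 * g1 = (b * (1 + g1) + (1 + b1) * g) * (1 * x2)
    linear_combination ((-1)*b) * hg1 + ((-1) + (-1)*b1) * hg2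
  · show b * x2 + (1 + b1) * (x2 + (1 + g)) + 0 * (1 + g) = (b * (1 + g1) + (1 + b1) * g) * (1 * (g * x2))
    linear_combination ((-1)*b*x2) * hg0 + ((-1) + (-1)*g + (-1)*b1 + (-1)*b1*g + (-2)*b) * hg2 + ((-1)*b + (-1)*b*x2) * two
  · show 0 * (1 + g1) + b1 * g + (1 + y2) * (g + (1 + g1)) = (b * (1 + g1) + (1 + b1) * g) * (y2 * 1)
    linear_combination ((-1)*g) * hb1 + ((-1) + (-1)*g1) * hb2
  · show 0 * (g1 + (1 + x2)) + b1 * (1 + x2) + (1 + y2) * g1 = (b * (1 + g1) + (1 + b1) * g) * (y2 * x2)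
    linear_combination ((-1)*g*x2) * hb1 + ((-1)*x2 + (-1)*g1*x2) * hb2 + ((-1) + (-1)*y2) * hg1 + ((-1) + (-1)*y2 + (-1)*b1) * hg2 + ((-1) + (-1)*x2 + (-1)*y2 + (-1)*y2*x2) * two
  · show 0 * x2 + b1 * (x2 + (1 + g)) + (1 + y2) * (1 + g) = (b * (1 + g1) + (1 + b1) * g) * (y2 * (g * x2))
    linear_combination ((-1)*g^2*x2) * hb1 + ((-1)*g*x2 + (-1)*g*g1*x2) * hb2 + ((-1)*x2 + (-1)*y2*x2) * hg0 + ((-3) + (-1)*g + (-3)*y2 + (-1)*y2*g + (-1)*b1 + (-1)*b1*g) * hg2 + ((-1) + (-2)*x2 + (-1)*y2 + (-2)*y2*x2) * two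
  · show (1 + b) * (1 + g1) + 0 * g + y2 * (g + (1 + g1)) = (b * (1 + g1) + (1 + b1) * g) * ((b * y2) * 1)
    linear_combination ((-1)*y2*g) * hb0 + ((-1) + (-1)*g1 + (-2)*g + (-1)*b + (-1)*b*g1) * hb2 + ((-1)*g + (-1)*y2*g) * two
  · show (1 + b) * (g1 + (1 + x2)) + 0 * (1 + x2) + y2 * g1 = (b * (1 + g1) + (1 + b1) * g) * ((b * y2) * x2)
    linear_combination ((-1)*y2*g*x2) * hb0 + ((-1)*x2 + (-1)*g1*x2 + (-2)*g*x2 + (-1)*b*x2 + (-1)*b*g1*x2) * hb2 + ((-1) + (-1)*y2 + (-1)*b) * hg1 + ((-2) + (-3)*y2) * hg2 + ((-1) + (-1)*x2 + (-2)*y2 + (-2)*y2*x2) * two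
  · show (1 + b) * x2 + 0 * (x2 + (1 + g)) + y2 * (1 + g) = (b * (1 + g1) + (1 + b1) * g) * ((b * y2) * (g * x2))
    linear_combination ((-1)*y2*g^2*x2) * hb0 + ((-1)*g*x2 + (-1)*g*g1*x2 + (-2)*g^2*x2 + (-1)*b*g*x2 + (-1)*b*g*g1*x2) * hb2 + ((-1)*x2 + (-1)*y2*x2 + (-1)*b*x2) * hg0 + ((-4) + (-2)*g + (-5)*y2 + (-3)*y2*g + (-2)*b) * hg2 + ((-2) + (-2)*x2 + (-1)*g + (-2)*y2 + (-3)*y2*x2 + (-1)*y2*g + (-1)*b + (-1)*b*x2) * two

theorem ping_step (h : Dat σ) {β γ : K} (hβ : β ∈ XS σ) (hγ : γ ∈ XS σ) (i j : Fin 3) :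
    ((th σ β * ad σ γ).map (Polynomial.evalRingHom 1)) i j =
      pingC σ β γ * (pingL σ β i * pingL σ γ j) := by
  rw [Matrix.map_mul, ping_th h hβ, ping_ad h hγ]
  obtain ⟨b0, b1, b2, b3⟩ := ping_rel h hβ
  obtain ⟨g0, g1, g2, g3⟩ := ping_rel h hγ
  exact ping_alg h.two b0 b1 b2 g0 g1 g2 i j

theorem ping_add_ne (h : Dat σ) {x y : K} (hxy : x ≠ y) : x + y ≠ 0 := by
  intro he
  apply hxy
  linear_combination he - y * h.two

theorem ping_dot (h : Dat σ) {β γ : K} (hβ : β ∈ XS σ) (hγ : γ ∈ XS σ) (hne : β ≠ γ) :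
    ∑ t, pingL σ β t * pingL σ γ t ≠ 0 := by
  obtain ⟨hb0, hb1, hb2, hb3⟩ := ping_rel h hβ
  obtain ⟨hg0, hg1, hg2, hg3⟩ := ping_rel h hγ
  have two := h.two
  have e : ∑ t, pingL σ β t * pingL σ γ t = σ (σ β) + σ (σ γ) := by
    rw [Fin.sum_univ_three]
    show 1 * 1 + σ (σ β) * σ (σ γ) + β * σ (σ β) * (γ * σ (σ γ)) = σ (σ β) + σ (σ γ)
    linear_combination (γ * σ (σ γ)) * hb2 + (1 + σ (σ β)) * hg2 + (1 + σ (σ β) * σ (σ γ)) * two
  rw [e]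
  apply ping_add_ne h
  intro he
  exact hne (σ.injective (σ.injective he))

theorem ping_C_ne (h : Dat σ) {β γ : K} (hβ : β ∈ XS σ) (hγ : γ ∈ XS σ) (hne : β ≠ γ) :
    pingC σ β γ ≠ 0 := by
  obtain ⟨hb0, hb1, hb2, hb3⟩ := ping_rel h hβ
  obtain ⟨hg0, hg1, hg2, hg3⟩ := ping_rel h hγ
  have two := h.two
  intro he
  have h1 := ping_add_ne h hne
  apply h1
  have h2 : (β + γ) ^ 2 = 0 := by
    have h3 : β * γ * pingC σ β γ = β ^ 2 + γ ^ 2 := by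
      unfold pingC
      linear_combination (γ ^ 2) * hb0 + (β ^ 2) * hg0 + (β * γ ^ 2 + β ^ 2 * γ) * two
    rw [he, mul_zero] at h3
    linear_combination (-1 : K) * h3 + β * γ * two
  exact pow_eq_zero_iff (two_ne_zero) |>.1 h2

theorem ping_word (h : Dat σ) {a b : ℕ → K} (ha : ∀ i, a i ∈ XS σ) (hb : ∀ i, b i ∈ XS σ)
    (j : ℕ) (hr : Red a b (j + 1)) : ∃ k : K, k ≠ 0 ∧ ∀ r c : Fin 3,
      ((wd σ a b (j + 1)).map (Polynomial.evalRingHom 1)) r c =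
        k * (pingL σ (a 0) r * pingL σ (b j) c) := by
  induction j with
  | zero =>
    refine ⟨pingC σ (a 0) (b 0), ping_C_ne h (ha 0) (hb 0) (hr.1 0 (by omega)), ?_⟩
    intro r c
    have e : wd σ a b (0 + 1) = th σ (a 0) * ad σ (b 0) := by
      show (1 : Mat K) * (th σ (a 0) * ad σ (b 0)) = th σ (a 0) * ad σ (b 0)
      rw [one_mul]
    rw [e]
    exact ping_step h (ha 0) (hb 0) r c
  | succ j ih =>
    obtain ⟨k, hk, hw⟩ := ih ⟨fun i hi => hr.1 i (by omega), fun i hi => hr.2 i (by omega)⟩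
    refine ⟨k * (∑ t, pingL σ (b j) t * pingL σ (a (j + 1)) t) * pingC σ (a (j + 1)) (b (j + 1)),
      ?_, ?_⟩
    · refine mul_ne_zero (mul_ne_zero hk ?_) ?_
      · exact ping_dot h (hb j) (ha (j + 1)) (hr.2 j (by omega))
      · exact ping_C_ne h (ha _) (hb _) (hr.1 (j + 1) (by omega))
    · intro r c
      have e : wd σ a b (j + 1 + 1) = wd σ a b (j + 1) * (th σ (a (j + 1)) * ad σ (b (j + 1))) :=
        rfl
      rw [e, Matrix.map_mul, Matrix.mul_apply]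
      have e2 : ∀ t, ((wd σ a b (j + 1)).map (Polynomial.evalRingHom 1)) r t *
          ((th σ (a (j + 1)) * ad σ (b (j + 1))).map (Polynomial.evalRingHom 1)) t c =
          (pingL σ (b j) t * pingL σ (a (j + 1)) t) *
            (k * pingC σ (a (j + 1)) (b (j + 1)) *
              (pingL σ (a 0) r * pingL σ (b (j + 1)) c)) := by
        intro t
        rw [hw r t, ping_step h (ha _) (hb _) t c]
        ring
      rw [Finset.sum_congr rfl (fun t _ => e2 t), ← Finset.sum_mul]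
      ring

end

theorem st_PING : ST_PING := by
  intro K _ σ h a b ha hb j hj hr
  obtain ⟨i, rfl⟩ : ∃ i, j = i + 1 := ⟨j - 1, by omega⟩
  obtain ⟨k, hk, hw⟩ := ping_word h ha hb i hr
  refine ⟨0, 0, ?_⟩
  have h1 := hw 0 0
  have h2 : ((wd σ a b (i + 1)).map (Polynomial.evalRingHom 1)) 0 0 =
      (wd σ a b (i + 1) 0 0).eval 1 := rfl
  rw [h2] at h1
  rw [h1]
  have h3 : ∀ β : K, pingL σ β 0 = 1 := fun β => rfl
  rw [h3, h3]
  simpa using hk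

end Pool.Agent.Helper50.GX
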